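import Mathlib
import Pool.Agent.Lib.MP_1d41ea_nt.H22Fix

set_option autoImplicit false

namespace Pool.Agent.Results.MP_1d41ea_nt.FixedSummand

open scoped Pointwise

/-- For every finite set `B` of naturals with at least three elements, at most `1.7546 ^ m`
subsets of `[0, m)` are sumsets `A + B`. -/
theorem result :
    ∀ B : Finset ℕ, 3 ≤ B.card → ∀ m : ℕ,
      (({C : Set ℕ | (∀ c ∈ C, c < m) ∧
          ∃ A : Set ℕ, ∀ c : ℕ, c ∈ C ↔ ∃ a ∈ A, ∃ b ∈ B, a + b = c} : Set (Set ℕ)).ncard : ℝ) ≤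
        (8773 / 5000 : ℝ) ^ m := by
  intro B hB m
  classical
  refine le_trans ?_ (Pool.Agent.Lib.MP_1d41ea_nt.H22.fixed B hB m)
  have hsub : {C : Set ℕ | (∀ c ∈ C, c < m) ∧
      ∃ A : Set ℕ, ∀ c : ℕ, c ∈ C ↔ ∃ a ∈ A, ∃ b ∈ B, a + b = c} ⊆
      (fun C : Finset ℕ => (C : Set ℕ)) '' (Pool.Agent.Lib.MP_1d41ea_nt.Nset B m : Set _) := by
    rintro C ⟨h1, A, h2⟩
    obtain ⟨b0, hb0⟩ : B.Nonempty := Finset.card_pos.1 (by omega)
    refine ⟨(Finset.range m).filter (· ∈ A) + B,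
      Pool.Agent.Lib.MP_1d41ea_nt.H22.mem_Nset.2 ⟨?_, _, rfl⟩, ?_⟩
    · intro c hc
      obtain ⟨a, ha, b, hb, rfl⟩ := Finset.mem_add.1 hc
      exact Finset.mem_range.2 (h1 _ ((h2 _).2 ⟨a, (Finset.mem_filter.1 ha).2, b, hb, rfl⟩))
    · ext c
      simp only [Finset.mem_coe, Finset.mem_add, Finset.mem_filter, Finset.mem_range, h2]
      constructor
      · rintro ⟨a, ha, b, hb, rfl⟩
        exact ⟨a, ha.2, b, hb, rfl⟩
      · rintro ⟨a, ha, b, hb, rfl⟩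
        have := h1 _ ((h2 _).2 ⟨a, ha, b, hb, rfl⟩)
        exact ⟨a, ⟨by omega, ha⟩, b, hb, rfl⟩
  have h := Set.ncard_le_ncard hsub (Set.toFinite _)
  rw [Set.ncard_image_of_injective _ Finset.coe_injective, Set.ncard_coe_finset] at h
  exact_mod_cast h

end Pool.Agent.Results.MP_1d41ea_nt.FixedSummand
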