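import Pool.Agent.Lib.MP_1d41ea_nt.H84Fin

set_option autoImplicit false

namespace Pool.Agent.Variants.MP_1d41ea_nt.PerturbedPowersFixed

open Filter

/-- Every sumset differs from the `k`-th powers in at least `(1 - ε) X^(1/k)` places up to `X`. -/
theorem result :
    ∀ k : ℕ, 2 ≤ k → ∀ B C : Set ℕ, B.Nontrivial → C.Nontrivial → ∀ ε : ℝ, 0 < ε →
      ∀ᶠ X : ℕ in atTop, (1 - ε) * (X : ℝ) ^ (k : ℝ)⁻¹ ≤
        (({n : ℕ | n ≤ X ∧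
          ¬ ((∃ b ∈ B, ∃ c ∈ C, b + c = n) ↔ ∃ m : ℕ, m ^ k = n)} : Set ℕ).ncard : ℝ) :=
  fun _ hk B C hB hC _ hε => Pool.Agent.Lib.MP_1d41ea_nt.H84.erdos hk B C hB hC hε

end Pool.Agent.Variants.MP_1d41ea_nt.PerturbedPowersFixed
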