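import Pool.Agent.Lib.MP_1d41ea_nt.H84Fin

set_option autoImplicit false

namespace Pool.Agent.Results.MP_1d41ea_nt.SparsePrimes

open Filter

/-- Numbers whose nonzero digits sit near a set with few repeated differences are lunar primes, and
every sumset differs from the `k`-th powers in at least `(1 - ε) X^(1/k)` places up to `X`. -/
theorem result :
    (∀ ε : ℝ, 0 < ε → ∃ N₀ : ℕ, ∀ b : ℕ, 2 ≤ b → ∀ S : Finset ℕ, N₀ ≤ S.card →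
      (∀ d : ℕ, 0 < d → (S.filter fun s => s + d ∈ S).card ^ 26 ≤ S.card) →
      ∀ n : ℕ, n % b ≠ 0 → (∃ i : ℕ, n / b ^ i % b = b - 1) →
        (({i : ℕ | ¬ (n / b ^ i % b ≠ 0 ↔ i ∈ S)} : Set ℕ).ncard : ℝ) ≤ (1 - ε) * S.card →
        n ≠ b - 1 ∧ ∀ a c : ℕ,
          (∀ m : ℕ, n / b ^ m % b =
            (Finset.range (m + 1)).sup
              (fun i => min (a / b ^ i % b) (c / b ^ (m - i) % b))) →
          a = b - 1 ∨ c = b - 1) ∧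
    ∀ k : ℕ, 2 ≤ k → ∀ B C : Set ℕ, B.Nontrivial → C.Nontrivial → ∀ ε : ℝ, 0 < ε →
      ∀ᶠ X : ℕ in atTop, (1 - ε) * (X : ℝ) ^ (k : ℝ)⁻¹ ≤
        (({n : ℕ | n ≤ X ∧
          ¬ ((∃ b ∈ B, ∃ c ∈ C, b + c = n) ↔ ∃ m : ℕ, m ^ k = n)} : Set ℕ).ncard : ℝ) :=
  ⟨fun _ hε => Pool.Agent.Lib.MP_1d41ea_nt.H84.lunar hε,
    fun _ hk B C hB hC _ hε => Pool.Agent.Lib.MP_1d41ea_nt.H84.erdos hk B C hB hC hε⟩

end Pool.Agent.Results.MP_1d41ea_nt.SparsePrimes
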